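import Pool.Agent.Helper60.SP.Word
import Pool.Agent.Helper60.SP.Sec

/-!
# SP-SUM: the union bound over the words
-/

set_option autoImplicit false

namespace Pool.Agent.Helper81.SP

open Pool.Agent.Helper60.SP
open Pool.Agent.Helper6.IP (BP obs)

variable {n : ℕ} {A : Type} [AddCommGroup A] {N : ℕ}

/-- The word with the letters `u`, continued by `0`. -/
def ext {r : ℕ} (u : Fin r → Fin 3) (i : ℕ) : Fin 3 := if h : i < r then u ⟨i, h⟩ else 0

theorem walk_congr {w w' : ℕ → Fin 3} {r : ℕ} (h : ∀ i < r, w i = w' i) :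
    ∀ i ≤ r, walk w i = walk w' i := by
  intro i
  induction i with
  | zero => intro _; rfl
  | succ i ih =>
    intro hi
    change turn (w i) (walk w i) = turn (w' i) (walk w' i)
    rw [h i (by omega), ih (by omega)]

theorem outs_congr {w w' : ℕ → Fin 3} {m : ℕ} (h : ∀ i < m - 1, w i = w' i) :
    outs w m = outs w' m := by
  have h1 : ∀ i ∈ Finset.range m, walk w i = walk w' i := fun i hi =>
    walk_congr h i (by have := Finset.mem_range.1 hi; omega)
  ext p
  unfold outs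
  simp only [Finset.mem_image, Finset.mem_filter]
  constructor
  · rintro ⟨i, ⟨hi, h2⟩, h3⟩
    rw [h1 i hi] at h2 h3
    exact ⟨i, ⟨hi, h2⟩, h3⟩
  · rintro ⟨i, ⟨hi, h2⟩, h3⟩
    rw [← h1 i hi] at h2 h3
    exact ⟨i, ⟨hi, h2⟩, h3⟩

theorem owners_slot {w : ℕ → Fin 3} {m : ℕ} {v : ℕ × ℕ} (hv : v ∈ owners w m) :
    ∃ s, (v, s) ∈ outs w m := by
  unfold owners at hv
  obtain ⟨p, hp, h⟩ := Finset.mem_image.1 (Finset.mem_of_mem_erase hv)
  refine ⟨p.2, ?_⟩
  rw [← h]
  exact hp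

open Classical in
/-- A slot of an owner. -/
noncomputable def sel (w : ℕ → Fin 3) (m : ℕ) (v : ℕ × ℕ) : Bool :=
  if h : ∃ s, (v, s) ∈ outs w m then Classical.choose h else false

theorem sel_mem {w : ℕ → Fin 3} {m : ℕ} {v : ℕ × ℕ} (hv : v ∈ owners w m) :
    (v, sel w m v) ∈ outs w m := by
  have h := owners_slot hv
  unfold sel
  rw [dif_pos h]
  exact Classical.choose_spec h

/-- The event of a word. -/
def Ev (B : BP (Cell n A) A N) (q : Fin N) (T : ℕ) (w : ℕ → Fin 3) (m : ℕ) (I : Cell n A → A) : Prop :=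
  CF I ∧ {c | ∃ j, obs B I q j = Sum.inl c}.ncard ≤ T ∧
    ∀ v ∈ owners w m, Blk (obs B I q) I v (sel w m v)

theorem ev_bound [Fintype A] (B : BP (Cell n A) A N) (q : Fin N) (T : ℕ) (hT : T ≤ Fintype.card A)
    (w : ℕ → Fin 3) (m g : ℕ) (hg : g ≤ (owners w m).card)
    (hw : ∀ v ∈ owners w m, IsNd n v ∧ v ≠ (0, 0)) :
    (Nat.card {I : Cell n A → A // Ev B q T w m I} : ℝ) ≤
      ((T : ℝ) / Fintype.card A) ^ g * Nat.card (Cell n A → A) := by
  have h := secrets B q T (owners w m) (sel w m) hw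
  have hk : (0 : ℝ) < Fintype.card A := by exact_mod_cast Fintype.card_pos
  have hT' : (T : ℝ) ≤ Fintype.card A := by exact_mod_cast hT
  have h1 : (Nat.card {I : Cell n A → A // Ev B q T w m I} : ℝ) * (Fintype.card A : ℝ) ^ (owners w m).card ≤
      (T : ℝ) ^ (owners w m).card * Nat.card (Cell n A → A) := by
    exact_mod_cast h
  have h2 : (Nat.card {I : Cell n A → A // Ev B q T w m I} : ℝ) ≤
      ((T : ℝ) / Fintype.card A) ^ (owners w m).card * Nat.card (Cell n A → A) := by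
    rw [div_pow, div_mul_eq_mul_div, le_div_iff₀ (pow_pos hk _)]
    exact h1
  refine h2.trans (mul_le_mul_of_nonneg_right ?_ (Nat.cast_nonneg _))
  exact pow_le_pow_of_le_one (by positivity) ((div_le_one hk).2 hT') hg

/-- The union bound over the words. -/
theorem word_sum [Fintype A] (B : BP (Cell n A) A N) (q : Fin N) (T : ℕ) (hT : T ≤ Fintype.card A)
    (P : (Cell n A → A) → Prop) (G : ℕ → ℕ) (m0 L : ℕ)
    (hP : ∀ I, P I → ∃ (w : ℕ → Fin 3) (m : ℕ), m0 ≤ m ∧ m ≤ L ∧ G m ≤ (owners w m).card ∧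
      (∀ v ∈ owners w m, IsNd n v ∧ v ≠ (0, 0)) ∧ ∀ p ∈ outs w m, Blk (obs B I q) I p.1 p.2) :
    (Nat.card {I : Cell n A → A // CF I ∧ {c | ∃ j, obs B I q j = Sum.inl c}.ncard ≤ T ∧ P I} : ℝ) ≤
      (∑ m ∈ Finset.Icc m0 L, 3 ^ (m - 1) * ((T : ℝ) / Fintype.card A) ^ (G m)) *
        Nat.card (Cell n A → A) := by
  classical
  let Z : (m : ℕ) → (Fin (m - 1) → Fin 3) → Finset (Cell n A → A) := fun m u =>
    if G m ≤ (owners (ext u) m).card ∧ ∀ v ∈ owners (ext u) m, IsNd n v ∧ v ≠ (0, 0) then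
      Finset.univ.filter (fun I => Ev B q T (ext u) m I) else ∅
  have hZ : ∀ m u, ((Z m u).card : ℝ) ≤ ((T : ℝ) / Fintype.card A) ^ (G m) * Nat.card (Cell n A → A) := by
    intro m u
    by_cases h : G m ≤ (owners (ext u) m).card ∧ ∀ v ∈ owners (ext u) m, IsNd n v ∧ v ≠ (0, 0)
    · have h1 := ev_bound B q T hT (ext u) m (G m) h.1 h.2
      rw [Nat.card_eq_fintype_card, Fintype.card_subtype] at h1
      have h2 : Z m u = Finset.univ.filter (fun I => Ev B q T (ext u) m I) := if_pos h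
      rw [h2]
      exact h1
    · have h2 : Z m u = ∅ := if_neg h
      rw [h2]
      simp only [Finset.card_empty, Nat.cast_zero]
      positivity
  have hsub : Finset.univ.filter (fun I : Cell n A → A => CF I ∧
      {c | ∃ j, obs B I q j = Sum.inl c}.ncard ≤ T ∧ P I) ⊆
        (Finset.Icc m0 L).biUnion (fun m => Finset.univ.biUnion (fun u => Z m u)) := by
    intro I hI
    obtain ⟨h1, h2, h3⟩ := (Finset.mem_filter.1 hI).2
    obtain ⟨w, m, hm0, hmL, hg, hnd, hb⟩ := hP I h3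
    have hc : outs w m = outs (ext (fun i : Fin (m - 1) => w i)) m := by
      refine outs_congr (fun i hi => ?_)
      unfold ext
      rw [dif_pos hi]
    have ho : owners w m = owners (ext (fun i : Fin (m - 1) => w i)) m := by
      unfold owners
      rw [hc]
    refine Finset.mem_biUnion.2 ⟨m, Finset.mem_Icc.2 ⟨hm0, hmL⟩, Finset.mem_biUnion.2
      ⟨fun i => w i, Finset.mem_univ _, ?_⟩⟩
    rw [ho] at hg hnd
    rw [hc] at hb
    have h4 : Z m (fun i : Fin (m - 1) => w i) =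
        Finset.univ.filter (fun I => Ev B q T (ext (fun i : Fin (m - 1) => w i)) m I) :=
      if_pos ⟨hg, hnd⟩
    rw [h4]
    exact Finset.mem_filter.2 ⟨Finset.mem_univ _, h1, h2, fun v hv => hb _ (sel_mem hv)⟩
  rw [Nat.card_eq_fintype_card, Fintype.card_subtype, Finset.sum_mul]
  have e1 : ((Finset.univ.filter (fun I : Cell n A → A => CF I ∧
      {c | ∃ j, obs B I q j = Sum.inl c}.ncard ≤ T ∧ P I)).card : ℝ) ≤
        ∑ m ∈ Finset.Icc m0 L, ∑ u : Fin (m - 1) → Fin 3, ((Z m u).card : ℝ) := by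
    have h5 := (Finset.card_le_card hsub).trans Finset.card_biUnion_le
    have h6 : ∑ m ∈ Finset.Icc m0 L, (Finset.univ.biUnion (fun u => Z m u)).card ≤
        ∑ m ∈ Finset.Icc m0 L, ∑ u : Fin (m - 1) → Fin 3, (Z m u).card :=
      Finset.sum_le_sum fun m _ => Finset.card_biUnion_le
    exact_mod_cast h5.trans h6
  refine e1.trans (Finset.sum_le_sum fun m _ => ?_)
  calc ∑ u : Fin (m - 1) → Fin 3, ((Z m u).card : ℝ)
      ≤ ∑ u : Fin (m - 1) → Fin 3, ((T : ℝ) / Fintype.card A) ^ (G m) * Nat.card (Cell n A → A) :=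
        Finset.sum_le_sum fun u _ => hZ m u
    _ = 3 ^ (m - 1) * ((T : ℝ) / Fintype.card A) ^ (G m) * Nat.card (Cell n A → A) := by
        rw [Finset.sum_const, Finset.card_univ, Fintype.card_fun, Fintype.card_fin, Fintype.card_fin,
          nsmul_eq_mul]
        push_cast
        ring

end Pool.Agent.Helper81.SP
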