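import Pool.Agent.Helper81.SP.Gen

/-!
# SP-SUM (b)
-/

set_option autoImplicit false

namespace Pool.Agent.Helper81.SP

open Pool.Agent.Helper60.SP
open Pool.Agent.Helper6.IP (BP obs)

variable {n : ℕ} {A : Type} [AddCommGroup A] {N : ℕ}

/-- blocks of four terms -/
theorem four_blocks (f : ℕ → ℝ) (x : ℝ) (hx0 : 0 ≤ x) (hx1 : x < 1) (hf : ∀ m, 0 ≤ f m)
    (hrec : ∀ m, f (m + 4) = x * f m) (m0 L : ℕ) :
    ∑ m ∈ Finset.Icc m0 L, f m ≤ (f m0 + f (m0 + 1) + f (m0 + 2) + f (m0 + 3)) / (1 - x) := by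
  have h4 : ∀ j, ∑ i ∈ Finset.range (4 * j), f (m0 + i) =
      (∑ i ∈ Finset.range j, x ^ i) * (f m0 + f (m0 + 1) + f (m0 + 2) + f (m0 + 3)) := by
    have hp : ∀ j m, f (m + 4 * j) = x ^ j * f m := by
      intro j
      induction j with
      | zero => intro m; simp
      | succ j ih =>
        intro m
        rw [show m + 4 * (j + 1) = (m + 4 * j) + 4 by ring, hrec, ih]
        ring
    intro j
    induction j with
    | zero => simp
    | succ j ih =>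
      rw [show 4 * (j + 1) = 4 * j + 1 + 1 + 1 + 1 by ring, Finset.sum_range_succ, Finset.sum_range_succ,
        Finset.sum_range_succ, Finset.sum_range_succ, ih, Finset.sum_range_succ]
      have e0 := hp j m0
      have e1 := hp j (m0 + 1)
      have e2 := hp j (m0 + 2)
      have e3 := hp j (m0 + 3)
      rw [show m0 + (4 * j + 1) = m0 + 1 + 4 * j by ring, show m0 + (4 * j + 1 + 1) = m0 + 2 + 4 * j by ring,
        show m0 + (4 * j + 1 + 1 + 1) = m0 + 3 + 4 * j by ring, e0, e1, e2, e3]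
      ring
  have h5 : ∑ m ∈ Finset.Icc m0 L, f m ≤ ∑ i ∈ Finset.range (4 * (L + 1)), f (m0 + i) := by
    have h6 : ∑ i ∈ Finset.range (4 * (L + 1)), f (m0 + i) = ∑ m ∈ Finset.Ico m0 (m0 + 4 * (L + 1)), f m := by
      rw [Finset.sum_Ico_eq_sum_range]
      simp
    rw [h6]
    refine Finset.sum_le_sum_of_subset_of_nonneg (fun m hm => ?_) (fun m _ _ => hf m)
    have := Finset.mem_Icc.1 hm
    exact Finset.mem_Ico.2 ⟨this.1, by omega⟩
  refine h5.trans ?_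
  rw [h4]
  have h7 : ∑ i ∈ Finset.range (L + 1), x ^ i ≤ 1 / (1 - x) := by
    have := geom_sum_Ico_le_of_lt_one (m := 0) (n := L + 1) hx0 hx1
    rw [pow_zero, ← Finset.range_eq_Ico] at this
    exact this
  have h8 : 0 ≤ f m0 + f (m0 + 1) + f (m0 + 2) + f (m0 + 3) := by
    have := hf m0
    have := hf (m0 + 1)
    have := hf (m0 + 2)
    have := hf (m0 + 3)
    positivity
  calc _ ≤ 1 / (1 - x) * (f m0 + f (m0 + 1) + f (m0 + 2) + f (m0 + 3)) :=
        mul_le_mul_of_nonneg_right h7 h8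
    _ = _ := by ring

theorem sum_bound (n L : ℕ) (y : ℝ) (hy0 : 0 ≤ y) (hy : y ≤ 1 / 1000) :
    ∑ m ∈ Finset.Icc (2 * n + 4) L, 3 ^ (m - 1) * y ^ ((m + 1) / 4) ≤ 10 * (81 * y) ^ (n / 2 + 1) := by
  have e0 : ∑ m ∈ Finset.Icc (2 * n + 4) L, 3 ^ (m - 1) * y ^ ((m + 1) / 4) =
      ∑ m ∈ Finset.Icc (2 * n + 4) L, (3 ^ m / 3) * y ^ ((m + 1) / 4) := by
    refine Finset.sum_congr rfl fun m hm => ?_
    have h1 := Finset.mem_Icc.1 hm
    obtain ⟨j, rfl⟩ : ∃ j, m = j + 1 := ⟨m - 1, by omega⟩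
    rw [Nat.add_sub_cancel, pow_succ]
    ring
  rw [e0]
  have h := four_blocks (fun m => (3 ^ m / 3) * y ^ ((m + 1) / 4)) (81 * y) (by positivity) (by linarith)
    (fun m => by positivity) (fun m => by
      have h1 : (m + 4 + 1) / 4 = (m + 1) / 4 + 1 := by omega
      simp only [h1, pow_succ]
      ring) (2 * n + 4) L
  refine h.trans ?_
  rw [div_le_iff₀ (by linarith)]
  have hz : 0 ≤ y ^ (n / 2 + 1) := by positivity
  rcases Nat.even_or_odd' n with ⟨j, rfl | rfl⟩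
  · have a0 : (2 * (2 * j) + 4 + 1) / 4 = j + 1 := by omega
    have a1 : (2 * (2 * j) + 4 + 1 + 1) / 4 = j + 1 := by omega
    have a2 : (2 * (2 * j) + 4 + 2 + 1) / 4 = j + 1 := by omega
    have a3 : (2 * (2 * j) + 4 + 3 + 1) / 4 = j + 2 := by omega
    have a4 : 2 * j / 2 + 1 = j + 1 := by omega
    have b0 : (3 : ℝ) ^ (2 * (2 * j) + 4) = 81 ^ (j + 1) := by
      rw [show 2 * (2 * j) + 4 = 4 * (j + 1) by ring, pow_mul]
      norm_num
    simp only [a0, a1, a2, a3, a4] at hz ⊢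
    have c1 : (3 : ℝ) ^ (2 * (2 * j) + 4 + 1) = 3 * 81 ^ (j + 1) := by rw [pow_succ, b0]; ring
    have c2 : (3 : ℝ) ^ (2 * (2 * j) + 4 + 2) = 9 * 81 ^ (j + 1) := by rw [pow_add, b0]; ring
    have c3 : (3 : ℝ) ^ (2 * (2 * j) + 4 + 3) = 27 * 81 ^ (j + 1) := by rw [pow_add, b0]; ring
    rw [b0, c1, c2, c3, mul_pow, pow_succ y (j + 1)]
    have hw : 0 ≤ (81 : ℝ) ^ (j + 1) * y ^ (j + 1) := by positivity
    have h9 : (81 : ℝ) ^ (j + 1) * y ^ (j + 1) * y ≤ 81 ^ (j + 1) * y ^ (j + 1) * (1 / 1000) :=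
      mul_le_mul_of_nonneg_left hy hw
    nlinarith [h9, hw]
  · have a0 : (2 * (2 * j + 1) + 4 + 1) / 4 = j + 1 := by omega
    have a1 : (2 * (2 * j + 1) + 4 + 1 + 1) / 4 = j + 2 := by omega
    have a2 : (2 * (2 * j + 1) + 4 + 2 + 1) / 4 = j + 2 := by omega
    have a3 : (2 * (2 * j + 1) + 4 + 3 + 1) / 4 = j + 2 := by omega
    have a4 : (2 * j + 1) / 2 + 1 = j + 1 := by omega
    have b0 : (3 : ℝ) ^ (2 * (2 * j + 1) + 4) = 9 * 81 ^ (j + 1) := by
      rw [show 2 * (2 * j + 1) + 4 = 4 * (j + 1) + 2 by ring, pow_add, pow_mul]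
      norm_num
      ring
    simp only [a0, a1, a2, a3, a4] at hz ⊢
    have c1 : (3 : ℝ) ^ (2 * (2 * j + 1) + 4 + 1) = 27 * 81 ^ (j + 1) := by rw [pow_succ, b0]; ring
    have c2 : (3 : ℝ) ^ (2 * (2 * j + 1) + 4 + 2) = 81 * 81 ^ (j + 1) := by rw [pow_add, b0]; ring
    have c3 : (3 : ℝ) ^ (2 * (2 * j + 1) + 4 + 3) = 243 * 81 ^ (j + 1) := by rw [pow_add, b0]; ring
    rw [b0, c1, c2, c3, mul_pow, pow_succ y (j + 1)]
    have hw : 0 ≤ (81 : ℝ) ^ (j + 1) * y ^ (j + 1) := by positivity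
    have h9 : (81 : ℝ) ^ (j + 1) * y ^ (j + 1) * y ≤ 81 ^ (j + 1) * y ^ (j + 1) * (1 / 1000) :=
      mul_le_mul_of_nonneg_left hy hw
    nlinarith [h9, hw]

theorem cut_close_bound [Fintype A] (hn : 1 ≤ n) (B : BP (Cell n A) A N) (q : Fin N) (T : ℕ)
    (hT : 1000 * T ≤ Fintype.card A) :
    (Nat.card {I : Cell n A → A // CF I ∧ {c | ∃ j, obs B I q j = Sum.inl c}.ncard ≤ T ∧
      Cut n (Blk (obs B I q) I) ∧ ∃ v, Reach n (Blk (obs B I q) I) v ∧ v.1 + v.2 = n} : ℝ) ≤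
      10 * (81 * T / Fintype.card A) ^ (n / 2 + 1) * Nat.card (Cell n A → A) := by
  have hk : (0 : ℝ) < Fintype.card A := by exact_mod_cast Fintype.card_pos
  have hT' : (1000 : ℝ) * T ≤ Fintype.card A := by exact_mod_cast hT
  have h := word_sum B q T (by omega) (fun I => Cut n (Blk (obs B I q) I) ∧
    ∃ v, Reach n (Blk (obs B I q) I) v ∧ v.1 + v.2 = n) (fun m => (m + 1) / 4) (2 * n + 4)
    (4 * (n + 1) ^ 2) (fun I hI => by
      obtain ⟨w, m, h1, h2, h3, h4, h5⟩ := word_close hn _ hI.1 hI.2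
      exact ⟨w, m, h1, h2, by omega, h4, h5⟩)
  refine h.trans (mul_le_mul_of_nonneg_right ?_ (Nat.cast_nonneg _))
  have h6 := sum_bound n (4 * (n + 1) ^ 2) ((T : ℝ) / Fintype.card A) (by positivity) (by
    rw [div_le_div_iff₀ hk (by norm_num)]
    linarith)
  rw [show (81 : ℝ) * T / Fintype.card A = 81 * (T / Fintype.card A) by ring]
  exact h6

end Pool.Agent.Helper81.SP
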